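import Mathlib
import Pool.Agent.Results.MP_356e41_ag.NotEventuallyPolynomial

/-!
Symmetric functions whose real varieties consist of the points with coordinates in
`{0, 1, …, r}` such that the numbers of coordinates equal to `1, …, r` satisfy a given
polynomial equation.
-/

noncomputable section

namespace Pool.Agent.Y241.SM

open Equiv Pool.Agent.Results.MP_356e41_ag.NotEventuallyPolynomial

lemma isSymFun_const (c : ℝ) : IsSymFun (fun n => (MvPolynomial.C c : MvPolynomial (Fin n) ℝ)) := by
  refine ⟨fun n => MvPolynomial.IsSymmetric.C c, fun n => ?_, 0, fun n => ?_⟩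
  · simp [lastZero]
  · simp

lemma isSymFun_mul {f g : ∀ n : ℕ, MvPolynomial (Fin n) ℝ} (hf : IsSymFun f) (hg : IsSymFun g) :
    IsSymFun (fun n => f n * g n) := by
  obtain ⟨hf1, hf2, D, hf3⟩ := hf
  obtain ⟨hg1, hg2, E, hg3⟩ := hg
  refine ⟨fun n => (hf1 n).mul (hg1 n), fun n => ?_, D + E, fun n => ?_⟩
  · simp [hf2, hg2]
  · exact (MvPolynomial.totalDegree_mul _ _).trans (add_le_add (hf3 n) (hg3 n))

/-- `∑ g(X_i)` -/
def uni (g : Polynomial ℝ) (n : ℕ) : MvPolynomial (Fin n) ℝ :=
  ∑ i, Polynomial.aeval (MvPolynomial.X i : MvPolynomial (Fin n) ℝ) g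

lemma isSymFun_uni (g : Polynomial ℝ) (hg : g.eval 0 = 0) : IsSymFun (uni g) := by
  refine ⟨fun n e => ?_, fun n => ?_, g.natDegree, fun n => ?_⟩
  · rw [uni, map_sum]
    conv_rhs => rw [← Equiv.sum_comp e]
    refine Finset.sum_congr rfl fun i _ => ?_
    rw [← Polynomial.aeval_algHom_apply, MvPolynomial.rename_X]
  · rw [uni, map_sum, Fin.sum_univ_castSucc]
    have h1 : lastZero n (Polynomial.aeval (MvPolynomial.X (Fin.last n) :
        MvPolynomial (Fin (n + 1)) ℝ) g) = 0 := by
      rw [← Polynomial.aeval_algHom_apply]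
      have : lastZero n (MvPolynomial.X (Fin.last n)) = 0 := by simp [lastZero]
      rw [this, Polynomial.aeval_def, Polynomial.eval₂_at_zero, Polynomial.coeff_zero_eq_eval_zero,
        hg, map_zero]
    rw [h1, add_zero, uni]
    refine Finset.sum_congr rfl fun i _ => ?_
    rw [← Polynomial.aeval_algHom_apply]
    congr 2
    simp [lastZero]
  · rw [uni]
    apply (MvPolynomial.totalDegree_finsetSum _ _).trans
    apply Finset.sup_le
    intro i _
    rw [Polynomial.aeval_eq_sum_range]
    apply (MvPolynomial.totalDegree_finsetSum _ _).trans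
    apply Finset.sup_le
    intro k hk
    rw [Finset.mem_range] at hk
    refine (MvPolynomial.totalDegree_smul_le _ _).trans ?_
    refine (MvPolynomial.totalDegree_pow _ _).trans ?_
    rw [MvPolynomial.totalDegree_X]
    omega

lemma isSymFun_aeval {r : ℕ} (F : MvPolynomial (Fin r) ℝ)
    (h : Fin r → ∀ n, MvPolynomial (Fin n) ℝ) (hh : ∀ i, IsSymFun (h i)) :
    IsSymFun (fun n => MvPolynomial.aeval (fun i => h i n) F) := by
  induction F using MvPolynomial.induction_on with
  | C a =>
    have := isSymFun_const a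
    simpa [MvPolynomial.algebraMap_eq] using this
  | add p q hp hq =>
    have := IsSymFun.add hp hq
    simpa using this
  | mul_X p i hp =>
    have := isSymFun_mul hp (hh i)
    simpa using this

lemma eval_uni (g : Polynomial ℝ) (n : ℕ) (x : Fin n → ℝ) :
    MvPolynomial.eval x (uni g n) = ∑ i, g.eval (x i) := by
  rw [uni, map_sum]
  refine Finset.sum_congr rfl fun i _ => ?_
  rw [Polynomial.aeval_def, Polynomial.hom_eval₂, MvPolynomial.eval_X]
  rw [Polynomial.eval₂_eq_eval_map]
  congr 1
  have : (MvPolynomial.eval x).comp (algebraMap ℝ (MvPolynomial (Fin n) ℝ)) = RingHom.id ℝ := by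
    ext a
    simp [MvPolynomial.algebraMap_eq]
  rw [this, Polynomial.map_id]

/-- the values `0, 1, …, r` -/
def node {r : ℕ} (o : Option (Fin r)) : ℝ := o.elim 0 (fun j => (j : ℝ) + 1)

lemma node_inj {r : ℕ} : Function.Injective (node (r := r)) := by
  intro a b h
  cases a with
  | none =>
    cases b with
    | none => rfl
    | some b =>
      simp only [node, Option.elim] at h
      have : (0 : ℝ) ≤ ((b : ℕ) : ℝ) := Nat.cast_nonneg _
      linarith
  | some a =>
    cases b with
    | none =>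
      simp only [node, Option.elim] at h
      have : (0 : ℝ) ≤ ((a : ℕ) : ℝ) := Nat.cast_nonneg _
      linarith
    | some b =>
      simp only [node, Option.elim] at h
      have h1 : ((a : ℕ) : ℝ) = ((b : ℕ) : ℝ) := by linarith
      have h2 : (a : ℕ) = b := by exact_mod_cast h1
      rw [Fin.ext h2]

/-- the polynomial with zeros `0, …, r` -/
def Q (r : ℕ) : Polynomial ℝ :=
  ∏ o : Option (Fin r), (Polynomial.X - Polynomial.C (node o))

lemma Q_zero (r : ℕ) : (Q r).eval 0 = 0 := by
  rw [Q, Polynomial.eval_prod]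
  apply Finset.prod_eq_zero (Finset.mem_univ none)
  simp [node]

lemma Q_eq_zero_iff (r : ℕ) (t : ℝ) : (Q r).eval t = 0 ↔ ∃ o : Option (Fin r), t = node o := by
  rw [Q, Polynomial.eval_prod, Finset.prod_eq_zero_iff]
  simp [sub_eq_zero]

/-- the interpolation polynomials -/
def L {r : ℕ} (i : Fin r) : Polynomial ℝ :=
  Lagrange.basis (Finset.univ : Finset (Option (Fin r))) node (some i)

lemma L_node {r : ℕ} (i : Fin r) (o : Option (Fin r)) :
    (L i).eval (node o) = if o = some i then 1 else 0 := by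
  split_ifs with h
  · rw [h, L]
    exact Lagrange.eval_basis_self (fun a _ b _ h => node_inj h) (Finset.mem_univ _)
  · rw [L]
    exact Lagrange.eval_basis_of_ne (fun h' => h h'.symm) (Finset.mem_univ _)

lemma L_zero {r : ℕ} (i : Fin r) : (L i).eval 0 = 0 := by
  have := L_node i none
  simpa [node] using this

/-- the symmetric function `∑ Q(X_i)² + F(∑ L_1(X_i), …, ∑ L_r(X_i))²` -/
def fam {r : ℕ} (F : MvPolynomial (Fin r) ℝ) : SymFun :=
  ⟨fun n => uni (Q r ^ 2) n + MvPolynomial.aeval (fun i => uni (L i) n) F *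
      MvPolynomial.aeval (fun i => uni (L i) n) F,
    IsSymFun.add (isSymFun_uni _ (by rw [Polynomial.eval_pow, Q_zero]; norm_num))
      (isSymFun_mul (isSymFun_aeval F _ (fun i => isSymFun_uni _ (L_zero i)))
        (isSymFun_aeval F _ (fun i => isSymFun_uni _ (L_zero i))))⟩

/-- the principal ideal -/
def one {r : ℕ} (F : MvPolynomial (Fin r) ℝ) : Fin 1 → SymFun := fun _ => fam F

/-- the numbers of coordinates equal to `1, …, r` -/
def vec {n : ℕ} (r : ℕ) (x : Fin n → ℝ) : Fin r → ℕ := fun j => cnt x (node (some j))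

lemma sum_L {n r : ℕ} (x : Fin n → ℝ) (hx : ∀ i, ∃ o : Option (Fin r), x i = node o) (j : Fin r) :
    ∑ i, (L j).eval (x i) = (vec r x j : ℝ) := by
  rw [vec, cnt_cast]
  refine Finset.sum_congr rfl fun i _ => ?_
  obtain ⟨o, ho⟩ := hx i
  rw [ho, L_node]
  by_cases h : o = some j
  · rw [if_pos h, if_pos (by rw [h])]
  · rw [if_neg h, if_neg (fun h' => h (node_inj h'))]

lemma mem_V {n r : ℕ} (F : MvPolynomial (Fin r) ℝ) (x : Fin n → ℝ) :
    x ∈ V (one F) n ↔ (∀ i, ∃ o : Option (Fin r), x i = node o) ∧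
      MvPolynomial.eval (fun j => (vec r x j : ℝ)) F = 0 := by
  have key : MvPolynomial.eval x ((fam F).1 n) = ∑ i, ((Q r).eval (x i)) ^ 2 +
      (MvPolynomial.eval (fun j => ∑ i, (L j).eval (x i)) F) ^ 2 := by
    change MvPolynomial.eval x (uni (Q r ^ 2) n + MvPolynomial.aeval (fun i => uni (L i) n) F *
      MvPolynomial.aeval (fun i => uni (L i) n) F) = _
    rw [map_add, map_mul, eval_uni, ← sq]
    have h1 : MvPolynomial.eval x (MvPolynomial.aeval (fun i => uni (L i) n) F) =
        MvPolynomial.eval (fun j => ∑ i, (L j).eval (x i)) F := by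
      rw [MvPolynomial.aeval_def, MvPolynomial.eval₂_comp_left (MvPolynomial.eval x)]
      have : (MvPolynomial.eval x).comp (algebraMap ℝ (MvPolynomial (Fin n) ℝ)) =
          RingHom.id ℝ := by
        ext a
        simp [MvPolynomial.algebraMap_eq]
      rw [this, MvPolynomial.eval₂_id]
      congr 2
      funext j
      exact eval_uni (L j) n x
    rw [h1]
    simp only [Polynomial.eval_pow]
  have key2 : x ∈ V (one F) n ↔ MvPolynomial.eval x ((fam F).1 n) = 0 := by
    constructor
    · intro h; exact h 0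
    · intro h j; exact h
  rw [key2, key]
  have h1 : 0 ≤ ∑ i, ((Q r).eval (x i)) ^ 2 := Finset.sum_nonneg fun i _ => sq_nonneg _
  have h2 := sq_nonneg (MvPolynomial.eval (fun j => ∑ i, (L j).eval (x i)) F)
  rw [add_eq_zero_iff_of_nonneg h1 h2, Finset.sum_eq_zero_iff_of_nonneg (fun i _ => sq_nonneg _)]
  constructor
  · rintro ⟨h3, h4⟩
    have h5 : ∀ i, ∃ o : Option (Fin r), x i = node o := fun i => by
      have := h3 i (Finset.mem_univ i)
      exact (Q_eq_zero_iff r _).1 (pow_eq_zero_iff (two_ne_zero) |>.1 this)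
    refine ⟨h5, ?_⟩
    have h6 : (fun j => ∑ i, (L j).eval (x i)) = fun j => (vec r x j : ℝ) := by
      funext j; exact sum_L x h5 j
    rw [← h6]
    exact pow_eq_zero_iff (two_ne_zero) |>.1 h4
  · rintro ⟨h3, h4⟩
    have h6 : (fun j => ∑ i, (L j).eval (x i)) = fun j => (vec r x j : ℝ) := by
      funext j; exact sum_L x h3 j
    refine ⟨fun i _ => ?_, ?_⟩
    · rw [(Q_eq_zero_iff r _).2 (h3 i)]; norm_num
    · rw [h6, h4]; norm_num

lemma finite_V {r : ℕ} (F : MvPolynomial (Fin r) ℝ) (n : ℕ) : (V (one F) n).Finite := by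
  apply Set.Finite.subset (Set.Finite.pi' (t := fun _ : Fin n => Set.range (node (r := r)))
    (fun _ => Set.finite_range _))
  intro x hx i
  obtain ⟨o, ho⟩ := ((mem_V F x).1 hx).1 i
  exact ⟨o, ho.symm⟩

instance {r : ℕ} (F : MvPolynomial (Fin r) ℝ) (n : ℕ) : Finite (V (one F) n) :=
  (finite_V F n).to_subtype

instance {r : ℕ} (F : MvPolynomial (Fin r) ℝ) (n : ℕ) : DiscreteTopology (V (one F) n) :=
  inferInstance

/-! ### orbits -/

lemma sum_cnt {n r : ℕ} (x : Fin n → ℝ) (hx : ∀ i, ∃ o : Option (Fin r), x i = node o) :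
    ∑ o : Option (Fin r), cnt x (node o) = n := by
  have h1 : ((∑ o : Option (Fin r), cnt x (node o) : ℕ) : ℝ) = (n : ℕ) := by
    rw [Nat.cast_sum]
    have e : ∀ o : Option (Fin r), (cnt x (node o) : ℝ) =
        ∑ i, if x i = node o then (1 : ℝ) else 0 := fun o => cnt_cast x _
    rw [Finset.sum_congr rfl fun o _ => e o, Finset.sum_comm]
    have h2 : ∀ i : Fin n, (∑ o : Option (Fin r), if x i = node o then (1 : ℝ) else 0) = 1 := by
      intro i
      obtain ⟨o, ho⟩ := hx i
      rw [Finset.sum_eq_single o]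
      · rw [if_pos ho]
      · intro o' _ ho'
        rw [if_neg]
        intro h
        exact ho' (node_inj (h.symm.trans ho))
      · intro h; exact absurd (Finset.mem_univ _) h
    rw [Finset.sum_congr rfl fun i _ => h2 i]
    simp
  exact_mod_cast h1

lemma vec_sum {n r : ℕ} (x : Fin n → ℝ) (hx : ∀ i, ∃ o : Option (Fin r), x i = node o) :
    cnt x 0 + ∑ j, vec r x j = n := by
  have := sum_cnt x hx
  rw [Fintype.sum_option] at this
  exact this

lemma exists_perm_of_cnt {n : ℕ} (x y : Fin n → ℝ) (h : ∀ a, cnt x a = cnt y a) :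
    ∃ σ : Perm (Fin n), (fun i => x (σ⁻¹ i)) = y := by
  classical
  have key2 : ∀ a : ℝ, Nonempty ({i // y i = a} ≃ {i // x i = a}) := by
    intro a
    have := h a
    unfold cnt at this
    rw [Nat.card_eq_fintype_card, Nat.card_eq_fintype_card] at this
    exact Fintype.card_eq.1 this.symm
  let e := fun a => Classical.choice (key2 a)
  let τ : Perm (Fin n) := Equiv.ofFiberEquiv e
  refine ⟨τ⁻¹, ?_⟩
  funext i
  rw [inv_inv]
  exact Equiv.ofFiberEquiv_map e i

lemma exists_perm {n r : ℕ} (F : MvPolynomial (Fin r) ℝ) (x y : V (one F) n)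
    (h : vec r x.1 = vec r y.1) : ∃ σ : Perm (Fin n), permMap (one F) n σ x = y := by
  have hx := ((mem_V F x.1).1 x.2).1
  have hy := ((mem_V F y.1).1 y.2).1
  have key : ∀ a, cnt x.1 a = cnt y.1 a := by
    intro a
    by_cases ha : ∃ o : Option (Fin r), a = node o
    · obtain ⟨o, rfl⟩ := ha
      cases o with
      | none =>
        have h1 := vec_sum x.1 hx
        have h2 := vec_sum y.1 hy
        rw [h] at h1
        change cnt x.1 0 = cnt y.1 0
        omega
      | some j => exact congrFun h j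
    · have aux : ∀ z : V (one F) n, cnt z.1 a = 0 := by
        intro z
        rw [cnt, Nat.card_eq_zero]
        left
        constructor
        rintro ⟨i, hi⟩
        obtain ⟨o, ho⟩ := ((mem_V F z.1).1 z.2).1 i
        exact ha ⟨o, hi.symm.trans ho⟩
      rw [aux, aux]
  obtain ⟨σ, hσ⟩ := exists_perm_of_cnt x.1 y.1 key
  exact ⟨σ, Subtype.ext hσ⟩

lemma vec_perm {n r : ℕ} (F : MvPolynomial (Fin r) ℝ) (x : V (one F) n) (σ : Perm (Fin n)) :
    vec r (permMap (one F) n σ x).1 = vec r x.1 := by
  funext j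
  apply Nat.card_congr
  exact (σ⁻¹).subtypeEquiv (fun i => Iff.rfl)

/-- the solutions of the equation -/
def Sol {r : ℕ} (F : MvPolynomial (Fin r) ℝ) (n : ℕ) : Type :=
  {m : Fin r → ℕ // ∑ j, m j ≤ n ∧ MvPolynomial.eval (fun j => (m j : ℝ)) F = 0}

instance {r : ℕ} (F : MvPolynomial (Fin r) ℝ) (n : ℕ) : Finite (Sol F n) := by
  have : ({m : Fin r → ℕ | ∑ j, m j ≤ n ∧
      MvPolynomial.eval (fun j => (m j : ℝ)) F = 0}).Finite := by
    apply Set.Finite.subset (Set.finite_Iic (fun _ : Fin r => n))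
    rintro m ⟨h1, _⟩ j
    exact (Finset.single_le_sum (fun _ _ => Nat.zero_le _) (Finset.mem_univ j)).trans h1
  exact this.to_subtype

lemma exists_pt {n r : ℕ} (m : Fin r → ℕ) (hm : ∑ j, m j ≤ n) :
    ∃ x : Fin n → ℝ, (∀ i, ∃ o : Option (Fin r), x i = node o) ∧ vec r x = m := by
  classical
  have hc : Fintype.card (Σ j : Fin r, Fin (m j)) ≤ Fintype.card (Fin n) := by
    simpa using hm
  obtain ⟨e⟩ := Function.Embedding.nonempty_of_card_le hc
  let x : Fin n → ℝ := fun i => if h : ∃ p, e p = i then node (some (h.choose).1) else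
    node (none : Option (Fin r))
  have hx1 : ∀ p, x (e p) = node (some p.1) := by
    intro p
    have h : ∃ p', e p' = e p := ⟨p, rfl⟩
    change (if h : ∃ p', e p' = e p then node (some (h.choose).1) else
      node (none : Option (Fin r))) = _
    rw [dif_pos h]
    have h2 := h.choose_spec
    rw [e.injective h2]
  have hx2 : ∀ i, (¬ ∃ p, e p = i) → x i = 0 := by
    intro i hi
    change (if h : ∃ p', e p' = i then node (some (h.choose).1) else
      (node (none : Option (Fin r)))) = _
    rw [dif_neg hi]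
    rfl
  refine ⟨x, ?_, ?_⟩
  · intro i
    by_cases h : ∃ p, e p = i
    · obtain ⟨p, rfl⟩ := h
      exact ⟨_, hx1 p⟩
    · exact ⟨none, hx2 i h⟩
  · funext j
    change Nat.card {i // x i = node (some j)} = m j
    have h1 : Nat.card (Fin (m j)) = m j := by simp
    rw [← h1]
    symm
    refine Nat.card_eq_of_bijective (fun k : Fin (m j) =>
      (⟨e ⟨j, k⟩, hx1 ⟨j, k⟩⟩ : {i // x i = node (some j)})) ⟨?_, ?_⟩
    · intro a b hab
      have h2 : e ⟨j, a⟩ = e ⟨j, b⟩ := congrArg Subtype.val hab
      have h3 := e.injective h2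
      simpa using h3
    · rintro ⟨i, hi⟩
      by_cases h : ∃ p, e p = i
      · obtain ⟨⟨j', k⟩, rfl⟩ := h
        have h2 := (hx1 ⟨j', k⟩).symm.trans hi
        have h3 : some j' = some j := node_inj h2
        have h4 : j' = j := by simpa using h3
        subst h4
        exact ⟨k, rfl⟩
      · exfalso
        rw [hx2 i h] at hi
        have h3 : (none : Option (Fin r)) = some j := node_inj (r := r) (by rw [← hi]; rfl)
        simp at h3

/-- the class of a point -/
def cls {n r : ℕ} (F : MvPolynomial (Fin r) ℝ) (x : V (one F) n) : Sol F n :=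
  ⟨vec r x.1, by
    have h := (mem_V F x.1).1 x.2
    exact ⟨by have := vec_sum x.1 h.1; omega, h.2⟩⟩

lemma cls_surj {n r : ℕ} (F : MvPolynomial (Fin r) ℝ) (m : Sol F n) :
    ∃ x : V (one F) n, cls F x = m := by
  obtain ⟨x, h1, h2⟩ := exists_pt m.1 m.2.1
  refine ⟨⟨x, (mem_V F x).2 ⟨h1, ?_⟩⟩, Subtype.ext h2⟩
  rw [h2]
  exact m.2.2

/-- invariant functions on the variety -/
def Inv {k : ℕ} (f : Fin k → SymFun) (n : ℕ) : Submodule ℚ (V f n → ℚ) where
  carrier := {c | ∀ (σ : Perm (Fin n)) x, c (permMap f n σ x) = c x}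
  add_mem' := by
    intro a b ha hb σ x
    simp [ha σ x, hb σ x]
  zero_mem' := by
    intro σ x
    rfl
  smul_mem' := by
    intro r a ha σ x
    simp [ha σ x]

/-- an invariant function is a function of the class -/
def invEq {r : ℕ} (F : MvPolynomial (Fin r) ℝ) (n : ℕ) :
    Inv (one F) n ≃ₗ[ℚ] (Sol F n → ℚ) where
  toFun c := fun m => c.1 (cls_surj F m).choose
  map_add' _ _ := rfl
  map_smul' _ _ := rfl
  invFun v := ⟨fun x => v (cls F x), by
    intro σ x
    change v _ = v _
    congr 1
    exact Subtype.ext (vec_perm F x σ)⟩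
  left_inv c := by
    apply Subtype.ext
    funext x
    change c.1 (cls_surj F (cls F x)).choose = c.1 x
    have h := (cls_surj F (cls F x)).choose_spec
    obtain ⟨σ, hσ⟩ := exists_perm F _ _ (congrArg Subtype.val h)
    have h2 := c.2 σ (cls_surj F (cls F x)).choose
    rw [hσ] at h2
    exact h2.symm
  right_inv v := by
    funext m
    change v (cls F (cls_surj F m).choose) = v m
    rw [(cls_surj F m).choose_spec]

lemma finrank_Inv {r : ℕ} (F : MvPolynomial (Fin r) ℝ) (n : ℕ) :
    Module.finrank ℚ (Inv (one F) n) = Nat.card (Sol F n) := by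
  have := Fintype.ofFinite (Sol F n)
  rw [(invEq F n).finrank_eq, Module.finrank_fintype_fun_eq_card, Nat.card_eq_fintype_card]

/-- invariant functions are the invariants of degree zero cohomology -/
def evInvG {k : ℕ} (f : Fin k → SymFun) (n : ℕ) [DiscreteTopology (V f n)] :
    Inv f n ≃ₗ[ℚ] invs (cohAct f n 0) :=
  LinearEquiv.ofBijective
    (((ev (V f n)).comp (Inv f n).subtype).codRestrict (invs (cohAct f n 0)) (by
      intro c σ
      change ev (V f n) (fun x => c.1 (permMap f n σ⁻¹ x)) = ev (V f n) c.1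
      congr 1
      funext x
      exact c.2 _ x))
    ⟨by
      intro a b hab
      have h1 : ev (V f n) a.1 = ev (V f n) b.1 := congrArg Subtype.val hab
      exact Subtype.ext (ev_injective _ h1), by
      rintro ⟨y, hy⟩
      obtain ⟨c, rfl⟩ := ev_surjective (V f n) y
      refine ⟨⟨c, ?_⟩, rfl⟩
      intro σ x
      have h1 := hy σ⁻¹
      change ev (V f n) (fun x => c (permMap f n (σ⁻¹)⁻¹ x)) = ev (V f n) c at h1
      rw [inv_inv] at h1
      exact congrFun (ev_injective _ h1) x⟩

/-- **The multiplicity of the trivial module.** -/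
theorem mult_one {r : ℕ} (F : MvPolynomial (Fin r) ℝ) (n : ℕ) :
    mult (one F) 0 n (pad ⊥ n (bot_le n)) = Nat.card (Sol F n) := by
  unfold mult
  rw [dif_pos (pad_bot_card n), homDim]
  rw [(rowEquiv n _ (by
    intro c hc
    rw [pad_bot_cells] at hc
    obtain ⟨j, _, rfl⟩ := Finset.mem_image.1 hc
    rfl) _ _).finrank_eq]
  rw [← (evInvG (one F) n).finrank_eq, finrank_Inv]

end Pool.Agent.Y241.SM
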