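import Mathlib
import Pool.Agent.Y241.SM.Gen

/-!
Consequences: growth exponents `s / d`, logarithmic growth.
-/

noncomputable section

namespace Pool.Agent.Y241.SM

open Equiv Pool.Agent.Results.MP_356e41_ag.NotEventuallyPolynomial

/-- The multiplicity of the trivial module `S^{(n)}` in `H^0(V_n(I); ℚ)` for the principal ideal
`I = (f)`. -/
def mtriv (f : SymFun) (n : ℕ) : ℕ := mult (fun _ : Fin 1 => f) 0 n (pad ⊥ n (bot_le n))

theorem gen {ι : Type} [Fintype ι] (F : MvPolynomial ι ℝ) : ∃ f : SymFun, ∀ n, mtriv f n =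
    Nat.card {m : ι → ℕ // ∑ j, m j ≤ n ∧ MvPolynomial.eval (fun j => (m j : ℝ)) F = 0} := by
  classical
  let e := Fintype.equivFin ι
  refine ⟨fam (MvPolynomial.rename e F), fun n => ?_⟩
  have h := mult_one (MvPolynomial.rename e F) n
  rw [mtriv]
  refine h.trans ?_
  apply Nat.card_congr
  refine (Equiv.arrowCongr e (Equiv.refl ℕ)).symm.subtypeEquiv ?_
  intro m
  have h1 : ∑ j, (Equiv.arrowCongr e (Equiv.refl ℕ)).symm m j = ∑ j, m j := by
    rw [← Equiv.sum_comp e]
    rfl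
  have h2 : MvPolynomial.eval (fun j => (m j : ℝ)) (MvPolynomial.rename e F) =
      MvPolynomial.eval (fun j => ((Equiv.arrowCongr e (Equiv.refl ℕ)).symm m j : ℝ)) F := by
    rw [MvPolynomial.eval_rename]
    rfl
  rw [h1, h2]

/-! ### all exponents `s / d` -/

theorem powers (s d : ℕ) (hd : 0 < d) : ∃ f : SymFun, ∀ n, mtriv f n =
    Nat.card {k : Fin s → ℕ // ∑ i, k i ^ d ≤ n} := by
  classical
  obtain ⟨f, hf⟩ := gen (ι := Fin s × Bool) (∑ i, (MvPolynomial.X (i, true) +
    MvPolynomial.X (i, false) - MvPolynomial.X (i, false) ^ d) ^ 2)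
  refine ⟨f, fun n => (hf n).trans ?_⟩
  have hle : ∀ k : ℕ, k ≤ k ^ d := fun k => by
    rcases Nat.eq_zero_or_pos k with h | h
    · subst h; exact Nat.zero_le _
    · exact Nat.le_self_pow (by omega) k
  have key : ∀ m : Fin s × Bool → ℕ, MvPolynomial.eval (fun j => (m j : ℝ))
      (∑ i, (MvPolynomial.X (i, true) + MvPolynomial.X (i, false) -
        MvPolynomial.X (i, false) ^ d) ^ 2) = 0 ↔
      ∀ i, m (i, true) + m (i, false) = m (i, false) ^ d := by
    intro m
    rw [map_sum]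
    simp only [map_pow, map_sub, map_add, MvPolynomial.eval_X]
    rw [Finset.sum_eq_zero_iff_of_nonneg (fun i _ => sq_nonneg _)]
    constructor
    · intro h i
      have h1 := h i (Finset.mem_univ i)
      have h2 := (pow_eq_zero_iff (two_ne_zero)).1 h1
      have h3 : (m (i, true) : ℝ) + m (i, false) = (m (i, false) : ℝ) ^ d := by linarith
      exact_mod_cast h3
    · intro h i _
      have h3 : (m (i, true) : ℝ) + m (i, false) = (m (i, false) : ℝ) ^ d := by
        exact_mod_cast h i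
      rw [h3, sub_self]
      norm_num
  have hsum : ∀ m : Fin s × Bool → ℕ, ∑ j, m j = ∑ i, (m (i, true) + m (i, false)) := by
    intro m
    rw [Fintype.sum_prod_type]
    refine Finset.sum_congr rfl fun i _ => ?_
    rw [Fintype.sum_bool]
  refine Nat.card_eq_of_bijective (fun m : {m : Fin s × Bool → ℕ // ∑ j, m j ≤ n ∧
      MvPolynomial.eval (fun j => (m j : ℝ)) (∑ i, (MvPolynomial.X (i, true) +
        MvPolynomial.X (i, false) - MvPolynomial.X (i, false) ^ d) ^ 2) = 0} =>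
      (⟨fun i => m.1 (i, false), by
        have h1 := m.2.1
        have h2 := (key m.1).1 m.2.2
        rw [hsum, Finset.sum_congr rfl fun i _ => h2 i] at h1
        exact h1⟩ : {k : Fin s → ℕ // ∑ i, k i ^ d ≤ n})) ⟨?_, ?_⟩
  · intro a b hab
    have h0 : (fun i => a.1 (i, false)) = fun i => b.1 (i, false) := congrArg Subtype.val hab
    apply Subtype.ext
    funext j
    obtain ⟨i, b'⟩ := j
    have h1 := (key a.1).1 a.2.2 i
    have h2 := (key b.1).1 b.2.2 i
    have h3 : a.1 (i, false) = b.1 (i, false) := congrFun h0 i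
    cases b' with
    | false => exact h3
    | true => rw [h3] at h1; omega
  · rintro ⟨k, hk⟩
    let m : Fin s × Bool → ℕ := fun j => if j.2 then k j.1 ^ d - k j.1 else k j.1
    have h1 : ∀ i, m (i, true) + m (i, false) = k i ^ d := by
      intro i
      have := hle (k i)
      change (if true = true then k i ^ d - k i else k i) +
        (if false = true then k i ^ d - k i else k i) = k i ^ d
      rw [if_pos rfl, if_neg (by simp)]
      omega
    refine ⟨⟨m, ?_, ?_⟩, rfl⟩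
    · rw [hsum, Finset.sum_congr rfl fun i _ => h1 i]
      exact hk
    · rw [key]
      intro i
      rw [h1 i]
      rfl

lemma powers_finite (s d n : ℕ) (hd : 0 < d) : Finite {k : Fin s → ℕ // ∑ i, k i ^ d ≤ n} := by
  have : ({k : Fin s → ℕ | ∑ i, k i ^ d ≤ n}).Finite := by
    apply Set.Finite.subset (Set.finite_Iic (fun _ : Fin s => n))
    intro k hk j
    have h1 : k j ≤ k j ^ d := by
      rcases Nat.eq_zero_or_pos (k j) with h | h
      · rw [h]; exact Nat.zero_le _
      · exact Nat.le_self_pow (by omega) _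
    exact h1.trans ((Finset.single_le_sum (f := fun i => k i ^ d) (fun _ _ => Nat.zero_le _)
      (Finset.mem_univ j)).trans hk)
  exact this.to_subtype

lemma powers_lower (s d n R : ℕ) (hd : 0 < d) (h : s * R ^ d ≤ n) :
    (R + 1) ^ s ≤ Nat.card {k : Fin s → ℕ // ∑ i, k i ^ d ≤ n} := by
  have := powers_finite s d n hd
  have h1 : Nat.card (Fin s → Fin (R + 1)) = (R + 1) ^ s := by simp
  rw [← h1]
  refine Nat.card_le_card_of_injective (fun k : Fin s → Fin (R + 1) =>
    (⟨fun i => (k i : ℕ), ?_⟩ : {k : Fin s → ℕ // ∑ i, k i ^ d ≤ n})) ?_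
  · refine le_trans (Finset.sum_le_sum (g := fun _ => R ^ d) fun i _ => ?_) ?_
    · have h2 : ((k i : ℕ)) ≤ R := by have := (k i).2; omega
      exact Nat.pow_le_pow_left h2 d
    · simpa using h
  · intro a b hab
    have h0 : (fun i => ((a i : ℕ))) = fun i => ((b i : ℕ)) := congrArg Subtype.val hab
    funext i
    exact Fin.ext (congrFun h0 i)

lemma powers_upper (s d n R : ℕ) (h : n < R ^ d) :
    Nat.card {k : Fin s → ℕ // ∑ i, k i ^ d ≤ n} ≤ R ^ s := by
  have h1 : Nat.card (Fin s → Fin R) = R ^ s := by simp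
  rw [← h1]
  refine Nat.card_le_card_of_injective (fun k : {k : Fin s → ℕ // ∑ i, k i ^ d ≤ n} =>
    ((fun i => ⟨k.1 i, ?_⟩) : Fin s → Fin R)) ?_
  · by_contra hlt
    push Not at hlt
    have h2 := Nat.pow_le_pow_left hlt d
    have h3 : k.1 i ^ d ≤ n := (Finset.single_le_sum (f := fun i => k.1 i ^ d)
      (fun _ _ => Nat.zero_le _) (Finset.mem_univ i)).trans k.2
    omega
  · intro a b hab
    apply Subtype.ext
    funext i
    have := congrFun hab i
    simpa using this

/-! ### all periods -/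

theorem periods (q : ℕ) (hq : 0 < q) : ∃ f : SymFun, ∀ n, mtriv f n = n / q + 1 := by
  obtain ⟨p, rfl⟩ : ∃ p, q = p + 1 := ⟨q - 1, by omega⟩
  obtain ⟨f, hf⟩ := gen (ι := Fin 2) (MvPolynomial.X 0 - MvPolynomial.C (p : ℝ) * MvPolynomial.X 1)
  refine ⟨f, fun n => (hf n).trans ?_⟩
  have key : ∀ m : Fin 2 → ℕ, MvPolynomial.eval (fun j => (m j : ℝ))
      (MvPolynomial.X 0 - MvPolynomial.C (p : ℝ) * MvPolynomial.X 1) = 0 ↔ m 0 = p * m 1 := by
    intro m
    simp only [map_sub, map_mul, MvPolynomial.eval_X, MvPolynomial.eval_C]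
    rw [sub_eq_zero]
    exact_mod_cast Iff.rfl
  have h1 : Nat.card (Fin (n / (p + 1) + 1)) = n / (p + 1) + 1 := by simp
  rw [← h1]
  symm
  refine Nat.card_eq_of_bijective (fun j : Fin (n / (p + 1) + 1) =>
    (⟨![p * j, j], ?_, ?_⟩ : {m : Fin 2 → ℕ // ∑ j, m j ≤ n ∧
      MvPolynomial.eval (fun j => (m j : ℝ))
        (MvPolynomial.X 0 - MvPolynomial.C (p : ℝ) * MvPolynomial.X 1) = 0})) ⟨?_, ?_⟩
  · have h2 : (j : ℕ) ≤ n / (p + 1) := by have := j.2; omega
    rw [Nat.le_div_iff_mul_le (by omega)] at h2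
    rw [Fin.sum_univ_two]
    change p * (j : ℕ) + (j : ℕ) ≤ n
    calc p * (j : ℕ) + (j : ℕ) = (j : ℕ) * (p + 1) := by ring
      _ ≤ n := h2
  · rw [key]; rfl
  · intro a b hab
    have h0 : (![p * (a : ℕ), (a : ℕ)] : Fin 2 → ℕ) = ![p * (b : ℕ), (b : ℕ)] :=
      congrArg Subtype.val hab
    have h2 := congrFun h0 1
    exact Fin.ext h2
  · rintro ⟨m, hm1, hm2⟩
    rw [key] at hm2
    rw [Fin.sum_univ_two, hm2] at hm1
    have h2 : m 1 ≤ n / (p + 1) := by
      rw [Nat.le_div_iff_mul_le (by omega)]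
      calc m 1 * (p + 1) = p * m 1 + m 1 := by ring
        _ ≤ n := hm1
    refine ⟨⟨m 1, by omega⟩, ?_⟩
    apply Subtype.ext
    funext i
    fin_cases i
    · exact hm2.symm
    · rfl

/-! ### logarithmic growth -/

/-- the equation of Pell -/
def PE : MvPolynomial (Fin 2) ℝ :=
  MvPolynomial.X 0 ^ 2 - MvPolynomial.C 3 * MvPolynomial.X 1 ^ 2 - MvPolynomial.C 1

lemma PE_iff (m : Fin 2 → ℕ) : MvPolynomial.eval (fun j => (m j : ℝ)) PE = 0 ↔
    m 0 ^ 2 = 3 * m 1 ^ 2 + 1 := by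
  simp only [PE, map_sub, map_mul, map_pow, MvPolynomial.eval_X, MvPolynomial.eval_C]
  constructor
  · intro h
    have h1 : (m 0 : ℝ) ^ 2 = 3 * (m 1 : ℝ) ^ 2 + 1 := by linarith
    exact_mod_cast h1
  · intro h
    have h1 : (m 0 : ℝ) ^ 2 = 3 * (m 1 : ℝ) ^ 2 + 1 := by exact_mod_cast h
    rw [h1]; ring

lemma a1 : 1 < 2 := by norm_num

lemma pell_le (j : ℕ) : Pell.yn a1 j ≤ Pell.xn a1 j ∧ Pell.xn a1 j + Pell.yn a1 j ≤ 4 ^ j := by
  induction j with
  | zero => simp
  | succ j ih =>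
    obtain ⟨h1, h2⟩ := ih
    have h3 : Pell.xn a1 (j + 1) = Pell.xn a1 j * 2 + 3 * Pell.yn a1 j := Pell.xn_succ a1 j
    have h4 : Pell.yn a1 (j + 1) = Pell.xn a1 j + Pell.yn a1 j * 2 := Pell.yn_succ a1 j
    rw [h3, h4, pow_succ]
    constructor <;> omega

lemma pell_sol (j : ℕ) : Pell.xn a1 j ^ 2 = 3 * Pell.yn a1 j ^ 2 + 1 := by
  have h : Pell.xn a1 j * Pell.xn a1 j - 3 * Pell.yn a1 j * Pell.yn a1 j = 1 :=
    Pell.pell_eq a1 j
  have e1 : Pell.xn a1 j ^ 2 = Pell.xn a1 j * Pell.xn a1 j := sq _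
  have e2 : 3 * Pell.yn a1 j ^ 2 = 3 * Pell.yn a1 j * Pell.yn a1 j := by ring
  omega

theorem logarithm : ∃ f : SymFun, (∀ n K : ℕ, n < 2 ^ K → mtriv f n ≤ K) ∧
    (∀ n K : ℕ, 4 ^ K ≤ n → K + 1 ≤ mtriv f n) ∧ Monotone (mtriv f) := by
  obtain ⟨f, hf⟩ := gen (ι := Fin 2) PE
  have hfin : ∀ n, Finite {m : Fin 2 → ℕ // ∑ j, m j ≤ n ∧
      MvPolynomial.eval (fun j => (m j : ℝ)) PE = 0} := by
    intro n
    have : ({m : Fin 2 → ℕ | ∑ j, m j ≤ n ∧
        MvPolynomial.eval (fun j => (m j : ℝ)) PE = 0}).Finite := by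
      apply Set.Finite.subset (Set.finite_Iic (fun _ : Fin 2 => n))
      rintro m ⟨h1, _⟩ j
      exact (Finset.single_le_sum (fun _ _ => Nat.zero_le _) (Finset.mem_univ j)).trans h1
    exact this.to_subtype
  have hex : ∀ m : Fin 2 → ℕ, MvPolynomial.eval (fun j => (m j : ℝ)) PE = 0 →
      ∃ j, m 0 = Pell.xn a1 j ∧ m 1 = Pell.yn a1 j := by
    intro m hm
    rw [PE_iff] at hm
    have e1 : m 0 ^ 2 = m 0 * m 0 := sq _
    have e2 : 3 * m 1 ^ 2 = 3 * m 1 * m 1 := by ring
    have e3 : m 0 * m 0 - 3 * m 1 * m 1 = 1 := by omega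
    exact Pell.eq_pell a1 e3
  refine ⟨f, ?_, ?_, ?_⟩
  · intro n K hn
    rw [hf n]
    have h1 : Nat.card (Fin K) = K := by simp
    rw [← h1]
    refine Nat.card_le_card_of_injective (fun m : {m : Fin 2 → ℕ // ∑ j, m j ≤ n ∧
      MvPolynomial.eval (fun j => (m j : ℝ)) PE = 0} =>
        (⟨(hex m.1 m.2.2).choose, ?_⟩ : Fin K)) ?_
    · obtain ⟨h2, h3⟩ := (hex m.1 m.2.2).choose_spec
      have h4 := Pell.xn_ge_a_pow a1 (hex m.1 m.2.2).choose
      have h5 := m.2.1
      rw [Fin.sum_univ_two] at h5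
      have h6 : 2 ^ (hex m.1 m.2.2).choose < 2 ^ K := by omega
      exact (Nat.pow_lt_pow_iff_right (by norm_num)).1 h6
    · intro m m' h
      have h0 : (hex m.1 m.2.2).choose = (hex m'.1 m'.2.2).choose := congrArg Fin.val h
      obtain ⟨h2, h3⟩ := (hex m.1 m.2.2).choose_spec
      obtain ⟨h4, h5⟩ := (hex m'.1 m'.2.2).choose_spec
      rw [h0] at h2 h3
      apply Subtype.ext
      funext i
      fin_cases i
      · exact h2.trans h4.symm
      · exact h3.trans h5.symm
  · intro n K hn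
    rw [hf n]
    have := hfin n
    have h1 : Nat.card (Fin (K + 1)) = K + 1 := by simp
    rw [← h1]
    refine Nat.card_le_card_of_injective (fun j : Fin (K + 1) =>
      (⟨![Pell.xn a1 j, Pell.yn a1 j], ?_, ?_⟩ : {m : Fin 2 → ℕ // ∑ j, m j ≤ n ∧
      MvPolynomial.eval (fun j => (m j : ℝ)) PE = 0})) ?_
    · rw [Fin.sum_univ_two]
      change Pell.xn a1 j + Pell.yn a1 j ≤ n
      have h2 := (pell_le j).2
      have h3 : 4 ^ (j : ℕ) ≤ 4 ^ K := Nat.pow_le_pow_right (by norm_num) (by have := j.2; omega)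
      omega
    · rw [PE_iff]
      exact pell_sol j
    · intro a b hab
      have h0 : (![Pell.xn a1 a, Pell.yn a1 a] : Fin 2 → ℕ) = ![Pell.xn a1 b, Pell.yn a1 b] :=
        congrArg Subtype.val hab
      have h2 : Pell.xn a1 a = Pell.xn a1 b := congrFun h0 0
      exact Fin.ext ((Pell.strictMono_x a1).injective h2)
  · intro n n' hnn
    rw [hf n, hf n']
    have := hfin n'
    refine Nat.card_le_card_of_injective (fun m : {m : Fin 2 → ℕ // ∑ j, m j ≤ n ∧
      MvPolynomial.eval (fun j => (m j : ℝ)) PE = 0} =>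
        (⟨m.1, m.2.1.trans hnn, m.2.2⟩ : {m : Fin 2 → ℕ // ∑ j, m j ≤ n' ∧
      MvPolynomial.eval (fun j => (m j : ℝ)) PE = 0})) ?_
    intro a b hab
    have h0 := congrArg Subtype.val hab
    exact Subtype.ext h0

/-- A sequence of logarithmic growth is not a quasi-polynomial. -/
theorem not_quasi (g : ℕ → ℕ) (h1 : ∀ n K : ℕ, n < 2 ^ K → g n ≤ K)
    (h2 : ∀ n K : ℕ, 4 ^ K ≤ n → K + 1 ≤ g n) (hmono : Monotone g) :
    ¬ ∃ (q : ℕ) (_ : 0 < q) (P : ℕ → Polynomial ℚ) (N : ℕ), ∀ n, N ≤ n →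
      (g n : ℚ) = (P (n % q)).eval (n : ℚ) := by
  rintro ⟨q, hq, P, N, hP⟩
  -- the polynomial on the multiples of `q`
  let R : Polynomial ℚ := (P 0).comp (Polynomial.C (q : ℚ) * Polynomial.X)
  have hR : ∀ k : ℕ, N ≤ k → (g (q * k) : ℚ) = R.eval (k : ℚ) := by
    intro k hk
    have hk2 : N ≤ q * k := hk.trans (Nat.le_mul_of_pos_left k hq)
    rw [hP _ hk2, Nat.mul_mod_right]
    simp [R]
  let D : Polynomial ℚ := R.comp (Polynomial.X + Polynomial.C 1) - R
  have hD : ∀ k : ℕ, N ≤ k → D.eval (k : ℚ) = (g (q * (k + 1)) : ℚ) - g (q * k) := by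
    intro k hk
    rw [hR k hk, hR (k + 1) (by omega)]
    simp [D]
  by_cases hD0 : D = 0
  · -- then `g` is bounded
    have hc : ∀ j : ℕ, g (q * (N + j)) = g (q * N) := by
      intro j
      induction j with
      | zero => rfl
      | succ j ih =>
        have h3 := hD (N + j) (by omega)
        rw [hD0, Polynomial.eval_zero] at h3
        have h4 : (g (q * (N + j + 1)) : ℚ) = g (q * (N + j)) := by linarith
        have h5 : g (q * (N + j + 1)) = g (q * (N + j)) := by exact_mod_cast h4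
        rw [← ih]
        exact h5
    have h3 := h2 (q * (N + 4 ^ g (q * N))) (g (q * N)) (by
      calc 4 ^ g (q * N) ≤ N + 4 ^ g (q * N) := Nat.le_add_left _ _
        _ ≤ _ := Nat.le_mul_of_pos_left _ hq)
    rw [hc] at h3
    omega
  · -- otherwise it grows at least linearly
    obtain ⟨M, hM⟩ : ∃ M : ℕ, ∀ k : ℕ, M ≤ k → D.eval (k : ℚ) ≠ 0 := by
      have hfin : (Set.range (fun k : ℕ => (k : ℚ)) ∩ {x | D.IsRoot x}).Finite :=
        (Polynomial.finite_setOfPred_isRoot hD0).inter_of_right _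
      have hfin2 : ({k : ℕ | D.IsRoot (k : ℚ)}).Finite := by
        apply Set.Finite.of_finite_image (f := fun k : ℕ => (k : ℚ))
        · apply hfin.subset
          rintro _ ⟨k, hk, rfl⟩
          exact ⟨⟨k, rfl⟩, hk⟩
        · intro a _ b _ hab
          have hab2 : (a : ℚ) = (b : ℚ) := hab
          exact_mod_cast hab2
      obtain ⟨M, hM⟩ := hfin2.bddAbove
      refine ⟨M + 1, fun k hk h0 => ?_⟩
      have := hM (show k ∈ {k : ℕ | D.IsRoot (k : ℚ)} from h0)
      omega
    have hstep : ∀ k : ℕ, max N M ≤ k → g (q * k) + 1 ≤ g (q * (k + 1)) := by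
      intro k hk
      have h3 := hD k (le_trans (le_max_left _ _) hk)
      have h4 := hM k (le_trans (le_max_right _ _) hk)
      have h5 : g (q * k) ≤ g (q * (k + 1)) := hmono (Nat.mul_le_mul_left q (by omega))
      have h6 : g (q * k) ≠ g (q * (k + 1)) := by
        intro h
        apply h4
        rw [h3, h]
        simp
      omega
    have hlin : ∀ j : ℕ, j ≤ g (q * (max N M + j)) := by
      intro j
      induction j with
      | zero => exact Nat.zero_le _
      | succ j ih =>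
        have := hstep (max N M + j) (by omega)
        rw [← Nat.add_assoc]
        omega
    -- choose `K` with `q (max N M + K + 1) < 2 ^ K`
    obtain ⟨K, hK⟩ : ∃ K : ℕ, q * (max N M + (K + 1)) < 2 ^ K := by
      have : ∀ A B : ℕ, ∃ K : ℕ, A * K + B < 2 ^ K := by
        intro A B
        have hl := tendsto_pow_const_div_const_pow_of_one_lt 1 (r := (2 : ℝ)) (by norm_num)
        have hB := tendsto_pow_const_div_const_pow_of_one_lt 0 (r := (2 : ℝ)) (by norm_num)
        have h7 := (hl.const_mul (A : ℝ)).add (hB.const_mul (B : ℝ))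
        simp only [mul_zero, add_zero, pow_one, pow_zero] at h7
        obtain ⟨K, hK⟩ := (h7.eventually (gt_mem_nhds (show (0 : ℝ) < 1 by norm_num))).exists
        refine ⟨K, ?_⟩
        have hp : (0 : ℝ) < 2 ^ K := by positivity
        have h8 : ((A : ℝ) * K + B) / 2 ^ K < 1 := by
          calc ((A : ℝ) * K + B) / 2 ^ K = A * (K / 2 ^ K) + B * (1 / 2 ^ K) := by ring
            _ < 1 := hK
        rw [div_lt_one hp] at h8
        exact_mod_cast h8
      obtain ⟨K, hK⟩ := this q (q * (max N M + 1))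
      refine ⟨K, ?_⟩
      calc q * (max N M + (K + 1)) = q * K + q * (max N M + 1) := by ring
        _ < 2 ^ K := hK
    have h7 := h1 _ K hK
    have h8 := hlin (K + 1)
    omega

end Pool.Agent.Y241.SM
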